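import Mathlib

/-!
Homogeneous functions of two real variables depending analytically on `s`.
-/

set_option autoImplicit false

open Complex

namespace Pool.Agent.R444.LS

/-- the logarithm of `x² + y²` -/
noncomputable def LL (x y : ℝ) : ℝ := Real.log (x ^ 2 + y ^ 2)

/-- Finite sums of `c(s) x^a y^b (x² + y²)^{-s/2-j}` with `a + b - 2 j = e`. -/
inductive Cls : ℤ → (ℂ → ℝ → ℝ → ℂ) → Prop
  | mono (c : ℂ → ℂ) (hc : Differentiable ℂ c) (a b j : ℕ) : Cls (a + b - 2 * j)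
      (fun s x y => c s * ((x : ℂ) ^ a * (y : ℂ) ^ b) * cexp (-(s / 2 + j) * LL x y))
  | add {e : ℤ} {g h : ℂ → ℝ → ℝ → ℂ} (hg : Cls e g) (hh : Cls e h) :
      Cls e (fun s x y => g s x y + h s x y)
  | zero (e : ℤ) : Cls e (fun _ _ _ => 0)

theorem Cls.congr {e e' : ℤ} {g g' : ℂ → ℝ → ℝ → ℂ} (h : Cls e g) (he : e = e') (hg : g = g') :
    Cls e' g' := by
  subst he; subst hg; exact h

theorem Cls.sum {e : ℤ} {ι : Type*} (S : Finset ι) (g : ι → ℂ → ℝ → ℝ → ℂ)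
    (h : ∀ i ∈ S, Cls e (g i)) : Cls e (fun s x y => ∑ i ∈ S, g i s x y) := by
  classical
  induction S using Finset.induction_on with
  | empty => exact (Cls.zero e).congr rfl (by funext s x y; simp)
  | insert i S hi ih =>
    have h1 := (h i (Finset.mem_insert_self i S)).add
      (ih fun j hj => h j (Finset.mem_insert_of_mem hj))
    exact h1.congr rfl (by funext s x y; rw [Finset.sum_insert hi])

/-- The `x`-derivative. -/
theorem Cls.deriv {e : ℤ} {g : ℂ → ℝ → ℝ → ℂ} (h : Cls e g) :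
    ∃ g' : ℂ → ℝ → ℝ → ℂ, Cls (e - 1) g' ∧ ∀ s x y, 0 < x ^ 2 + y ^ 2 →
      HasDerivAt (fun u : ℝ => g s u y) (g' s x y) x := by
  induction h with
  | mono c hc a b j =>
    have h1 : ∃ g₁ : ℂ → ℝ → ℝ → ℂ, Cls (a + b - 2 * j - 1) g₁ ∧ ∀ s x y, g₁ s x y =
        c s * ((a * (x : ℂ) ^ (a - 1)) * (y : ℂ) ^ b) * cexp (-(s / 2 + j) * LL x y) := by
      rcases a with _ | a
      · refine ⟨fun _ _ _ => 0, Cls.zero _, fun s x y => by simp⟩
      · refine ⟨_, (Cls.mono (fun s => c s * ((a : ℂ) + 1)) (hc.mul_const _) a b j).congr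
          (by push_cast; ring) rfl, fun s x y => ?_⟩
        simp only [Nat.add_sub_cancel]
        push_cast
        ring
    obtain ⟨g₁, hg₁, e₁⟩ := h1
    have h2 : Cls (a + b - 2 * j - 1) (fun s x y => (c s * (-(s / 2 + j) * 2)) *
        ((x : ℂ) ^ (a + 1) * (y : ℂ) ^ b) * cexp (-(s / 2 + (j + 1 : ℕ)) * LL x y)) := by
      refine (Cls.mono (fun s => c s * (-(s / 2 + j) * 2)) (by fun_prop) (a + 1) b (j + 1)).congr
        (by push_cast; ring) rfl
    refine ⟨_, hg₁.add h2, fun s x y hxy => ?_⟩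
    have hLL : HasDerivAt (fun u : ℝ => LL u y) (2 * x / (x ^ 2 + y ^ 2)) x := by
      have h3 : HasDerivAt (fun u : ℝ => u ^ 2 + y ^ 2) (2 * x) x := by
        simpa using (hasDerivAt_pow 2 x).add_const (y ^ 2)
      exact h3.log hxy.ne'
    have h3 : HasDerivAt (fun u : ℝ => ((LL u y : ℝ) : ℂ)) ((2 * x / (x ^ 2 + y ^ 2) : ℝ) : ℂ) x :=
      hLL.ofReal_comp
    have h4 : HasDerivAt (fun u : ℝ => cexp (-(s / 2 + j) * LL u y))
        (cexp (-(s / 2 + j) * LL x y) * (-(s / 2 + j) * ((2 * x / (x ^ 2 + y ^ 2) : ℝ) : ℂ))) x :=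
      (h3.const_mul (-(s / 2 + j))).cexp
    have h5 : HasDerivAt (fun u : ℝ => (u : ℂ) ^ a) (a * (x : ℂ) ^ (a - 1)) x := by
      have h6 := (hasDerivAt_pow a (x : ℂ)).comp_ofReal
      exact h6
    have h6 : HasDerivAt (fun u : ℝ => c s * ((u : ℂ) ^ a * (y : ℂ) ^ b))
        (c s * ((a * (x : ℂ) ^ (a - 1)) * (y : ℂ) ^ b)) x :=
      (h5.mul_const _).const_mul _
    have h7 := h6.mul h4
    refine h7.congr_deriv ?_
    rw [e₁]
    have hexp : cexp (-(s / 2 + (j + 1 : ℕ)) * LL x y) =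
        cexp (-(s / 2 + j) * LL x y) * (((x ^ 2 + y ^ 2 : ℝ) : ℂ))⁻¹ := by
      have h8 : (((x ^ 2 + y ^ 2 : ℝ) : ℂ))⁻¹ = cexp (-(LL x y : ℂ)) := by
        rw [Complex.exp_neg, ← Complex.ofReal_exp, LL, Real.exp_log hxy]
      rw [h8, ← Complex.exp_add]
      congr 1
      push_cast
      ring
    rw [hexp]
    push_cast
    ring
  | add hg hh ihg ihh =>
    obtain ⟨g', hg', h1⟩ := ihg
    obtain ⟨h', hh', h2⟩ := ihh
    exact ⟨_, hg'.add hh', fun s x y hxy => (h1 s x y hxy).add (h2 s x y hxy)⟩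
  | zero e => exact ⟨_, Cls.zero (e - 1), fun s x y _ => hasDerivAt_const x (0 : ℂ)⟩

/-- The functions are entire in `s`. -/
theorem Cls.differentiable {e : ℤ} {g : ℂ → ℝ → ℝ → ℂ} (h : Cls e g) (x y : ℝ) :
    Differentiable ℂ (fun s => g s x y) := by
  induction h with
  | mono c hc a b j => fun_prop
  | add hg hh ihg ihh => exact ihg.add ihh
  | zero e => exact differentiable_const 0

/-- The size. -/
theorem Cls.bound {e : ℤ} {g : ℂ → ℝ → ℝ → ℂ} (h : Cls e g) {K : Set ℂ} (hK : IsCompact K) :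
    ∃ C : ℝ, 0 ≤ C ∧ ∀ s ∈ K, ∀ x y, 0 < x ^ 2 + y ^ 2 →
      ‖g s x y‖ ≤ C * Real.exp ((e - s.re) * (LL x y / 2)) := by
  induction h with
  | mono c hc a b j =>
    obtain ⟨C, hC⟩ := hK.exists_bound_of_continuousOn (f := c) hc.continuous.continuousOn
    refine ⟨|C|, abs_nonneg C, fun s hs x y hxy => ?_⟩
    have h1 : ‖c s‖ ≤ |C| := (hC s hs).trans (le_abs_self C)
    have hroot : ∀ t : ℝ, t ^ 2 ≤ x ^ 2 + y ^ 2 → |t| ≤ Real.exp (LL x y / 2) := by
      intro t ht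
      have h2 : Real.exp (LL x y / 2) ^ 2 = x ^ 2 + y ^ 2 := by
        rw [← Real.exp_nat_mul, LL]
        push_cast
        rw [mul_div_cancel₀ _ (by norm_num : (2 : ℝ) ≠ 0), Real.exp_log hxy]
      rw [← h2] at ht
      exact abs_le_of_sq_le_sq ht (Real.exp_pos _).le
    have hx := hroot x (by nlinarith [sq_nonneg y])
    have hy := hroot y (by nlinarith [sq_nonneg x])
    have h2 : ‖cexp (-(s / 2 + j) * LL x y)‖ = Real.exp (-(s.re / 2 + j) * LL x y) := by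
      rw [Complex.norm_exp]
      congr 1
      rw [Complex.re_mul_ofReal]
      simp
    have h3 : Real.exp (((a + b - 2 * j : ℤ) - s.re) * (LL x y / 2)) =
        Real.exp (LL x y / 2) ^ a * Real.exp (LL x y / 2) ^ b *
          Real.exp (-(s.re / 2 + j) * LL x y) := by
      rw [← Real.exp_nat_mul, ← Real.exp_nat_mul, ← Real.exp_add, ← Real.exp_add]
      congr 1
      push_cast
      ring
    calc ‖c s * ((x : ℂ) ^ a * (y : ℂ) ^ b) * cexp (-(s / 2 + j) * LL x y)‖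
        = ‖c s‖ * (|x| ^ a * |y| ^ b) * Real.exp (-(s.re / 2 + j) * LL x y) := by
          rw [norm_mul, norm_mul, norm_mul, norm_pow, norm_pow, h2, Complex.norm_real,
            Complex.norm_real, Real.norm_eq_abs, Real.norm_eq_abs]
      _ ≤ |C| * (Real.exp (LL x y / 2) ^ a * Real.exp (LL x y / 2) ^ b) *
          Real.exp (-(s.re / 2 + j) * LL x y) := by gcongr
      _ = |C| * Real.exp (((a + b - 2 * j : ℤ) - s.re) * (LL x y / 2)) := by
          rw [h3]; ring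
  | add hg hh ihg ihh =>
    obtain ⟨C₁, h1, hC₁⟩ := ihg
    obtain ⟨C₂, h2, hC₂⟩ := ihh
    refine ⟨C₁ + C₂, by positivity, fun s hs x y hxy => ?_⟩
    refine (norm_add_le _ _).trans ?_
    rw [add_mul]
    exact add_le_add (hC₁ s hs x y hxy) (hC₂ s hs x y hxy)
  | zero e =>
    refine ⟨0, le_rfl, fun s _ x y _ => ?_⟩
    simp

/-- The backward difference in `x`. -/
def Dx (g : ℂ → ℝ → ℝ → ℂ) : ℂ → ℝ → ℝ → ℂ := fun s x y => g s x y - g s (x - 1) y

theorem hasDerivAt_Dx {g g' : ℂ → ℝ → ℝ → ℂ} (s : ℂ) (y : ℝ)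
    (h : ∀ x, 0 < x ^ 2 + y ^ 2 → HasDerivAt (fun u : ℝ => g s u y) (g' s x y) x) (N : ℕ) :
    ∀ x : ℝ, (∀ u ∈ Set.Icc (x - N) x, 0 < u ^ 2 + y ^ 2) →
      HasDerivAt (fun u : ℝ => (Dx^[N] g) s u y) ((Dx^[N] g') s x y) x := by
  induction N with
  | zero =>
    intro x hx
    exact h x (hx x ⟨by simp, le_rfl⟩)
  | succ N ih =>
    intro x hx
    push_cast at hx
    rw [Function.iterate_succ_apply', Function.iterate_succ_apply']
    have h1 := ih x (fun u hu => hx u ⟨by linarith [hu.1], hu.2⟩)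
    have h2 := ih (x - 1) (fun u hu => hx u ⟨by linarith [hu.1], by linarith [hu.2]⟩)
    have h3 : HasDerivAt (fun u : ℝ => (Dx^[N] g) s (u - 1) y) ((Dx^[N] g') s (x - 1) y) x :=
      h2.comp_sub_const x 1
    exact h1.sub h3

/-- The `N`-th difference is bounded by the `N`-th derivative. -/
theorem Cls.diff (N : ℕ) : ∀ {e : ℤ} {g : ℂ → ℝ → ℝ → ℂ}, Cls e g →
    ∃ gN : ℂ → ℝ → ℝ → ℂ, Cls (e - N) gN ∧ ∀ (s : ℂ) (x y M : ℝ),
      (∀ u ∈ Set.Icc (x - N) x, 0 < u ^ 2 + y ^ 2 ∧ ‖gN s u y‖ ≤ M) →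
      ‖(Dx^[N] g) s x y‖ ≤ M := by
  induction N with
  | zero =>
    intro e g h
    refine ⟨g, h.congr (by simp) rfl, fun s x y M hM => ?_⟩
    exact (hM x ⟨by simp, le_rfl⟩).2
  | succ N ih =>
    intro e g h
    obtain ⟨g', hg', hd⟩ := h.deriv
    obtain ⟨gN, hgN, hb⟩ := ih hg'
    refine ⟨gN, hgN.congr (by push_cast; ring) rfl, fun s x y M hM => ?_⟩
    push_cast at hM
    rw [Function.iterate_succ_apply']
    have h1 : ∀ u ∈ Set.Icc (x - 1) x, HasDerivAt (fun u : ℝ => (Dx^[N] g) s u y)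
        ((Dx^[N] g') s u y) u := by
      intro u hu
      apply hasDerivAt_Dx s y (fun x hx => hd s x y hx) N u
      intro v hv
      exact (hM v ⟨by linarith [hv.1, hu.1], hv.2.trans hu.2⟩).1
    have h2 : ∀ u ∈ Set.Icc (x - 1) x, ‖(Dx^[N] g') s u y‖ ≤ M := by
      intro u hu
      apply hb s u y M
      intro v hv
      exact hM v ⟨by linarith [hv.1, hu.1], hv.2.trans hu.2⟩
    have h3 := Convex.norm_image_sub_le_of_norm_hasDerivWithin_le (s := Set.Icc (x - 1) x)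
      (fun u hu => (h1 u hu).hasDerivWithinAt) h2 (convex_Icc _ _)
      (Set.left_mem_Icc.mpr (by linarith)) (Set.right_mem_Icc.mpr (by linarith))
    show ‖(Dx^[N] g) s x y - (Dx^[N] g) s (x - 1) y‖ ≤ M
    have h4 : ‖x - (x - 1)‖ = 1 := by
      rw [show x - (x - 1) = 1 by ring]; simp
    rw [h4, mul_one] at h3
    exact h3

end Pool.Agent.R444.LS
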