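import Pool.Agent.R444.LS.Lat

/-!
The analytic continuation of one lattice series, with polynomial bounds.
-/

set_option autoImplicit false

open Complex Filter

namespace Pool.Agent.R444.LS

/-- the Euclidean norm of an integer vector -/
noncomputable def enorm' {n : ℕ} (k : Fin n → ℤ) : ℝ := √(∑ j, (k j : ℝ) ^ 2)

/-- the function of two variables -/
noncomputable def gP (P : MvPolynomial (Fin 2) ℂ) (i : Fin 2) : ℂ → ℝ → ℝ → ℂ :=
  fun s x y => ∑ m ∈ P.support, P.coeff m * ((x : ℂ) ^ (m i) * (y : ℂ) ^ (m (i + 1))) *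
    cexp (-(s / 2 + (0 : ℕ)) * LL x y)

theorem gP_cls {P : MvPolynomial (Fin 2) ℂ} {d : ℕ} (hP : P.IsHomogeneous d) (i : Fin 2) :
    Cls d (gP P i) := by
  apply Cls.sum
  intro m hm
  have hdeg : m i + m (i + 1) = d := by
    have h1 := hP (MvPolynomial.mem_support_iff.mp hm)
    rw [Finsupp.weight_apply, Finsupp.sum_fintype _ _ (by simp), Fin.sum_univ_two] at h1
    simp only [Pi.one_apply, smul_eq_mul, mul_one] at h1
    fin_cases i
    · simpa using h1
    · simp only [Fin.mk_one, Fin.isValue]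
      have : (1 : Fin 2) + 1 = 0 := rfl
      rw [this]
      omega
  refine (Cls.mono (fun _ => P.coeff m) (differentiable_const _) (m i) (m (i + 1)) 0).congr ?_ rfl
  push_cast
  rw [← hdeg]
  push_cast
  ring

theorem sq_sum (k : Lt) (i : Fin 2) : (∑ j, (k j : ℝ) ^ 2) = (k i : ℝ) ^ 2 + (k (i + 1) : ℝ) ^ 2 := by
  rw [Fin.sum_univ_two]
  fin_cases i
  · simp
  · have : (1 : Fin 2) + 1 = 0 := rfl
    simp only [Fin.mk_one, Fin.isValue, this]
    ring

theorem sq_pos {k : Lt} (hk : k ≠ 0) (i : Fin 2) : 0 < (k i : ℝ) ^ 2 + (k (i + 1) : ℝ) ^ 2 := by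
  have h1 := norm_eq_max k i
  have h2 : 0 < ‖k‖ := norm_pos_iff.mpr hk
  rw [h1, lt_max_iff] at h2
  rcases h2 with h2 | h2
  · have := abs_pos.mp h2
    positivity
  · have := abs_pos.mp h2
    positivity

theorem lat_eq (P : MvPolynomial (Fin 2) ℂ) (i : Fin 2) (s : ℂ) {k : Lt} (hk : k ≠ 0) :
    MvPolynomial.eval (fun j => (k j : ℂ)) P * ((enorm' k : ℝ) : ℂ) ^ (-s) = lat i (gP P i) s k := by
  rw [lat, if_neg hk, gP, MvPolynomial.eval_eq', Finset.sum_mul]
  apply Finset.sum_congr rfl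
  intro m _
  have hpos := sq_pos hk i
  have h1 : ((enorm' k : ℝ) : ℂ) ^ (-s) = cexp (-(s / 2 + (0 : ℕ)) * LL (k i) (k (i + 1))) := by
    have h2 : (0 : ℝ) < enorm' k := by
      rw [enorm', sq_sum k i]
      exact Real.sqrt_pos.mpr hpos
    rw [Complex.cpow_def_of_ne_zero (by exact_mod_cast h2.ne'), ← Complex.ofReal_log h2.le, enorm',
      sq_sum k i, Real.log_sqrt hpos.le]
    congr 1
    rw [LL]
    push_cast
    ring
  have h2 : (∏ j : Fin 2, (k j : ℂ) ^ (m j)) = ((k i : ℝ) : ℂ) ^ (m i) *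
      ((k (i + 1) : ℝ) : ℂ) ^ (m (i + 1)) := by
    rw [Fin.prod_univ_two]
    fin_cases i
    · simp
    · have : (1 : Fin 2) + 1 = 0 := rfl
      simp only [Fin.mk_one, Fin.isValue, this]
      push_cast
      ring
  rw [h1, h2]

/-- number of differences -/
noncomputable def NN (d : ℕ) (s : ℂ) : ℕ := ⌈(d : ℝ) + 3 + ‖s‖⌉₊

noncomputable def TT (P : MvPolynomial (Fin 2) ℂ) (i : Fin 2) (a : Fin 2 → ℝ) (N : ℕ) (s : ℂ) : ℂ :=
  ((1 - chi a (ee i))⁻¹) ^ N * ∑' k, ((Dl i)^[N] (lat i (gP P i))) s k * chi a k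

noncomputable def FF (P : MvPolynomial (Fin 2) ℂ) (d : ℕ) (i : Fin 2) (a : Fin 2 → ℝ) (s : ℂ) : ℂ :=
  TT P i a (NN d s) s

theorem summ {P : MvPolynomial (Fin 2) ℂ} {d : ℕ} (hP : P.IsHomogeneous d) (i : Fin 2) (s : ℂ)
    (N : ℕ) (hN : (d : ℝ) + 3 + ‖s‖ ≤ N) : Summable (((Dl i)^[N] (lat i (gP P i))) s) := by
  obtain ⟨C, hC, hb⟩ := Dl_bound i (gP_cls hP i) (K := {s}) isCompact_singleton N (by
    intro t ht
    rw [Set.mem_singleton_iff] at ht
    rw [ht]
    have h1 := abs_le.mp (abs_re_le_norm s)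
    push_cast
    linarith [h1.1])
  exact Summable.of_norm_bounded (wt_summable.mul_left C) (fun k => hb s (Set.mem_singleton s) k)

theorem step (P : MvPolynomial (Fin 2) ℂ) (i : Fin 2) (a : Fin 2 → ℝ) (N : ℕ) (s : ℂ)
    (h : Summable (((Dl i)^[N] (lat i (gP P i))) s)) (ha : chi a (ee i) ≠ 1) :
    TT P i a (N + 1) s = TT P i a N s := by
  have h1 : 1 - chi a (ee i) ≠ 0 := sub_ne_zero.mpr ha.symm
  rw [TT, TT, Function.iterate_succ_apply', parts i a _ s h, pow_succ]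
  field_simp

theorem TT_eq {P : MvPolynomial (Fin 2) ℂ} {d : ℕ} (hP : P.IsHomogeneous d) (i : Fin 2)
    (a : Fin 2 → ℝ) (ha : chi a (ee i) ≠ 1) (s : ℂ) (N : ℕ) (hN : NN d s ≤ N) :
    TT P i a N s = FF P d i a s := by
  induction N, hN using Nat.le_induction with
  | base => rfl
  | succ N hN ih =>
    have h1 : ((⌈(d : ℝ) + 3 + ‖s‖⌉₊ : ℕ) : ℝ) ≤ N := Nat.cast_le.mpr hN
    rw [step P i a N s (summ hP i s N ((Nat.le_ceil _).trans h1)) ha, ih]

theorem summ_zero {P : MvPolynomial (Fin 2) ℂ} {d : ℕ} (hP : P.IsHomogeneous d) (i : Fin 2) (s : ℂ)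
    (hs : (2 : ℝ) + d < s.re) : Summable (lat i (gP P i) s) := by
  apply EisensteinSeries.summable_of_isBigO_rpow_norm (a := s.re - d) (by linarith)
  obtain ⟨C, hC, hb⟩ := (gP_cls hP i).bound (K := {s}) isCompact_singleton
  apply Asymptotics.IsBigO.of_bound C
  have h1 : ∀ᶠ k : Lt in cofinite, k ≠ 0 := by
    rw [eventually_cofinite]
    simp
  filter_upwards [h1] with k hk
  have hk' : 0 < ‖k‖ := norm_pos_iff.mpr hk
  have hpos := sq_pos hk i
  rw [lat, if_neg hk]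
  refine (hb s (Set.mem_singleton s) _ _ hpos).trans ?_
  gcongr
  rw [← Real.rpow_neg hk'.le, Real.norm_of_nonneg (by positivity), Real.rpow_def_of_pos hk',
    Real.exp_le_exp]
  have h2 : Real.log ‖k‖ ≤ LL (k i) (k (i + 1)) / 2 := by
    have h3 : Real.log (‖k‖ ^ 2) ≤ LL (k i) (k (i + 1)) := by
      apply Real.log_le_log (by positivity)
      have h4 := norm_eq_max k i
      rcases le_total |(k i : ℝ)| |(k (i + 1) : ℝ)| with h5 | h5
      · rw [max_eq_right h5] at h4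
        rw [h4, sq_abs]
        nlinarith [sq_nonneg (k i : ℝ)]
      · rw [max_eq_left h5] at h4
        rw [h4, sq_abs]
        nlinarith [sq_nonneg (k (i + 1) : ℝ)]
    rw [Real.log_pow] at h3
    push_cast at h3
    linarith
  push_cast
  nlinarith

theorem TT_zero {P : MvPolynomial (Fin 2) ℂ} {d : ℕ} (hP : P.IsHomogeneous d) (i : Fin 2)
    (a : Fin 2 → ℝ) (ha : chi a (ee i) ≠ 1) (s : ℂ) (hs : (2 : ℝ) + d < s.re) :
    TT P i a 0 s = FF P d i a s := by
  have h : ∀ N : ℕ, TT P i a N s = TT P i a 0 s := by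
    intro N
    induction N with
    | zero => rfl
    | succ N ih => rw [step P i a N s (Dl_summable i _ s (summ_zero hP i s hs) N) ha, ih]
  exact (h _).symm

theorem FF_eq {P : MvPolynomial (Fin 2) ℂ} {d : ℕ} (hP : P.IsHomogeneous d) (i : Fin 2)
    (a : Fin 2 → ℝ) (ha : chi a (ee i) ≠ 1) (s : ℂ) (hs : (2 : ℝ) + d < s.re) :
    FF P d i a s = ∑' k : {k : Lt // k ≠ 0}, MvPolynomial.eval (fun j => (k.1 j : ℂ)) P *
      ((enorm' k.1 : ℝ) : ℂ) ^ (-s) * chi a k.1 := by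
  rw [← TT_zero hP i a ha s hs, TT, pow_zero, one_mul, Function.iterate_zero, id]
  have h1 : ∑' k : {k : Lt // k ≠ 0}, MvPolynomial.eval (fun j => (k.1 j : ℂ)) P *
      ((enorm' k.1 : ℝ) : ℂ) ^ (-s) * chi a k.1 =
      ∑' k : {k : Lt // k ≠ 0}, lat i (gP P i) s k.1 * chi a k.1 := by
    apply tsum_congr
    rintro ⟨k, hk⟩
    rw [lat_eq P i s hk]
  rw [h1]
  have h2 := tsum_subtype {k : Lt | k ≠ 0} (fun k => lat i (gP P i) s k * chi a k)
  refine Eq.trans ?_ h2.symm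
  apply tsum_congr
  intro k
  by_cases hk : k = 0
  · rw [Set.indicator_of_notMem (by simp [hk]), lat, if_pos hk, zero_mul]
  · rw [Set.indicator_of_mem (show k ∈ {k : Lt | k ≠ 0} from hk)]

theorem FF_bound {P : MvPolynomial (Fin 2) ℂ} {d : ℕ} (hP : P.IsHomogeneous d) (R : ℝ) :
    ∃ (N : ℕ) (C : ℝ), 0 ≤ C ∧ ∀ (i : Fin 2) (a : Fin 2 → ℝ), chi a (ee i) ≠ 1 →
      DifferentiableOn ℂ (FF P d i a) (Metric.ball 0 R) ∧
      ∀ s ∈ Metric.ball (0 : ℂ) R, ‖FF P d i a s‖ ≤ ‖(1 - chi a (ee i))⁻¹‖ ^ N * C := by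
  obtain ⟨N, hN⟩ : ∃ N : ℕ, N = ⌈(d : ℝ) + 3 + R⌉₊ := ⟨_, rfl⟩
  have hNN : ∀ s ∈ Metric.ball (0 : ℂ) R, NN d s ≤ N := by
    intro s hs
    rw [mem_ball_zero_iff] at hs
    rw [NN, hN]
    apply Nat.ceil_mono
    linarith
  have hex : ∀ i : Fin 2, ∃ C : ℝ, 0 ≤ C ∧ ∀ s ∈ Metric.closedBall (0 : ℂ) R,
      ∀ k, ‖((Dl i)^[N] (lat i (gP P i))) s k‖ ≤ C * wt k := by
    intro i
    apply Dl_bound i (gP_cls hP i) (isCompact_closedBall _ _) N
    intro s hs
    rw [mem_closedBall_zero_iff] at hs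
    have h1 := abs_le.mp (abs_re_le_norm s)
    have h2 : (d : ℝ) + 3 + R ≤ N := by rw [hN]; exact Nat.le_ceil _
    push_cast
    linarith [h1.1]
  choose C hC hb using hex
  have hwt0 : 0 ≤ ∑' k, wt k := tsum_nonneg fun k => (wt_pos k).le
  refine ⟨N, (C 0 + C 1) * ∑' k, wt k, mul_nonneg (add_nonneg (hC 0) (hC 1)) hwt0,
    fun i a ha => ?_⟩
  have hCi : C i ≤ C 0 + C 1 := by
    have h0 := hC 0
    have h1 := hC 1
    fin_cases i
    · show C 0 ≤ C 0 + C 1; linarith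
    · show C 1 ≤ C 0 + C 1; linarith
  have hterm : ∀ k, ∀ s ∈ Metric.ball (0 : ℂ) R,
      ‖((Dl i)^[N] (lat i (gP P i))) s k * chi a k‖ ≤ C i * wt k := by
    intro k s hs
    rw [norm_mul, norm_chi, mul_one]
    exact hb i s (Metric.ball_subset_closedBall hs) k
  have hsum : Summable (fun k => C i * wt k) := wt_summable.mul_left _
  constructor
  · have h1 : DifferentiableOn ℂ (fun s => ∑' k, ((Dl i)^[N] (lat i (gP P i))) s k * chi a k)
        (Metric.ball 0 R) := by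
      apply differentiableOn_tsum_of_summable_norm hsum _ Metric.isOpen_ball hterm
      intro k
      have h2 := Dl_diff i (lat i (gP P i)) (by
        intro k
        unfold lat
        by_cases hk : k = 0
        · simp only [hk, if_true]; exact differentiable_const 0
        · simp only [hk, if_false]; exact (gP_cls hP i).differentiable _ _) N k
      exact (h2.mul_const _).differentiableOn
    have h2 : DifferentiableOn ℂ (TT P i a N) (Metric.ball 0 R) := h1.const_mul _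
    exact h2.congr fun s hs => (TT_eq hP i a ha s N (hNN s hs)).symm
  · intro s hs
    rw [← TT_eq hP i a ha s N (hNN s hs), TT, norm_mul, norm_pow]
    gcongr
    have h1 : Summable (fun k => ‖((Dl i)^[N] (lat i (gP P i))) s k * chi a k‖) :=
      Summable.of_nonneg_of_le (fun k => norm_nonneg _) (fun k => hterm k s hs) hsum
    calc ‖∑' k, ((Dl i)^[N] (lat i (gP P i))) s k * chi a k‖
        ≤ ∑' k, ‖((Dl i)^[N] (lat i (gP P i))) s k * chi a k‖ := norm_tsum_le_tsum_norm h1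
      _ ≤ ∑' k, C i * wt k := h1.tsum_le_tsum (fun k => hterm k s hs) hsum
      _ = C i * ∑' k, wt k := tsum_mul_left
      _ ≤ (C 0 + C 1) * ∑' k, wt k := by gcongr

end Pool.Agent.R444.LS
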