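import Pool.Agent.R444.LS.Cls

/-!
Lattice sums and summation by parts.
-/

set_option autoImplicit false

open Complex Filter

namespace Pool.Agent.R444.LS

abbrev Lt := Fin 2 → ℤ

/-- the unit vector -/
def ee (i : Fin 2) : Lt := Pi.single i 1

/-- the difference operator on lattice functions -/
def Dl (i : Fin 2) (ψ : ℂ → Lt → ℂ) : ℂ → Lt → ℂ := fun s k => ψ s k - ψ s (k - ee i)

/-- a lattice function from a function of two variables -/
noncomputable def lat (i : Fin 2) (g : ℂ → ℝ → ℝ → ℂ) : ℂ → Lt → ℂ :=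
  fun s k => if k = 0 then 0 else g s (k i) (k (i + 1))

theorem norm_eq_max (k : Lt) (i : Fin 2) : ‖k‖ = max |(k i : ℝ)| |(k (i + 1) : ℝ)| := by
  apply le_antisymm
  · rw [pi_norm_le_iff_of_nonneg (le_max_of_le_left (abs_nonneg _))]
    intro j
    have hj : j = i ∨ j = i + 1 := by
      fin_cases i <;> fin_cases j <;> simp
    rcases hj with rfl | rfl
    · rw [← Int.norm_eq_abs]; exact le_max_left _ _
    · rw [← Int.norm_eq_abs (k (i + 1))]; exact le_max_right _ _
  · apply max_le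
    · rw [← Int.norm_eq_abs]; exact norm_le_pi_norm k i
    · rw [← Int.norm_eq_abs]; exact norm_le_pi_norm k (i + 1)

theorem ee_self (i : Fin 2) : ee i i = 1 := by simp [ee]

theorem ee_other (i : Fin 2) : ee i (i + 1) = 0 := by
  fin_cases i <;> simp [ee]

/-- far from the origin the differences agree -/
theorem Dl_lat (i : Fin 2) (g : ℂ → ℝ → ℝ → ℂ) (s : ℂ) (N : ℕ) : ∀ k : Lt, (N : ℝ) < ‖k‖ →
    ((Dl i)^[N] (lat i g)) s k = (Dx^[N] g) s (k i) (k (i + 1)) := by
  induction N with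
  | zero =>
    intro k hk
    have : k ≠ 0 := by
      rintro rfl
      simp at hk
    show lat i g s k = g s (k i) (k (i + 1))
    rw [lat, if_neg this]
  | succ N ih =>
    intro k hk
    push_cast at hk
    rw [Function.iterate_succ_apply', Function.iterate_succ_apply']
    show ((Dl i)^[N] (lat i g)) s k - ((Dl i)^[N] (lat i g)) s (k - ee i) =
      (Dx^[N] g) s (k i) (k (i + 1)) - (Dx^[N] g) s (k i - 1) (k (i + 1))
    have h1 : ‖ee i‖ = 1 := by
      rw [norm_eq_max (ee i) i, ee_self, ee_other]; simp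
    have h2 : ‖k‖ ≤ ‖k - ee i‖ + ‖ee i‖ := by
      calc ‖k‖ = ‖(k - ee i) + ee i‖ := by rw [sub_add_cancel]
        _ ≤ _ := norm_add_le _ _
    rw [ih k (by linarith), ih (k - ee i) (by linarith)]
    rw [Pi.sub_apply, Pi.sub_apply, ee_self, ee_other]
    push_cast
    rw [sub_zero]

theorem Dl_diff (i : Fin 2) (ψ : ℂ → Lt → ℂ) (h : ∀ k, Differentiable ℂ (fun s => ψ s k))
    (N : ℕ) : ∀ k, Differentiable ℂ (fun s => ((Dl i)^[N] ψ) s k) := by
  induction N with
  | zero => exact h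
  | succ N ih =>
    intro k
    rw [Function.iterate_succ_apply']
    exact (ih k).sub (ih (k - ee i))

theorem Dl_summable (i : Fin 2) (ψ : ℂ → Lt → ℂ) (s : ℂ) (h : Summable (ψ s))
    (N : ℕ) : Summable (((Dl i)^[N] ψ) s) := by
  induction N with
  | zero => exact h
  | succ N ih =>
    rw [Function.iterate_succ_apply']
    have h1 : Summable (fun k => ((Dl i)^[N] ψ) s (k - ee i)) :=
      (Equiv.subRight (ee i)).summable_iff.mpr ih
    exact ih.sub h1

/-- The weight. -/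
noncomputable def wt (k : Lt) : ℝ := ((1 + ‖k‖) ^ 3)⁻¹

theorem wt_pos (k : Lt) : 0 < wt k := by unfold wt; positivity

theorem wt_summable : Summable wt := by
  apply EisensteinSeries.summable_of_isBigO_rpow_norm (a := 3) (by norm_num)
  apply Asymptotics.IsBigO.of_bound 1
  have h1 : ∀ᶠ k : Lt in cofinite, k ≠ 0 := by
    rw [eventually_cofinite]
    simp
  filter_upwards [h1] with k hk
  have hk' : 0 < ‖k‖ := norm_pos_iff.mpr hk
  rw [wt, Real.norm_of_nonneg (by positivity), Real.norm_of_nonneg (by positivity), one_mul,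
    show (3 : ℝ) = ((3 : ℕ) : ℝ) by norm_num, Real.rpow_natCast]
  apply inv_anti₀ (by positivity)
  gcongr
  linarith

theorem finite_small (R : ℝ) : {k : Lt | ‖k‖ ≤ R}.Finite := by
  have h1 : {k : Lt | ‖k‖ ≤ R} ⊆ ↑(Fintype.piFinset (fun _ : Fin 2 => Finset.Icc (-⌈R⌉) ⌈R⌉)) := by
    intro k hk
    rw [Finset.mem_coe, Fintype.mem_piFinset]
    intro j
    have h2 : ‖k j‖ ≤ R := (norm_le_pi_norm k j).trans hk
    rw [Int.norm_eq_abs] at h2
    have h3 := abs_le.mp h2
    have h4 : (k j : ℝ) ≤ ⌈R⌉ := h3.2.trans (Int.le_ceil R)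
    have h5 : -((⌈R⌉ : ℤ) : ℝ) ≤ k j := by
      have := Int.le_ceil R
      linarith [h3.1]
    rw [Finset.mem_Icc]
    exact ⟨by exact_mod_cast h5, by exact_mod_cast h4⟩
  exact (Finset.finite_toSet _).subset h1

/-- The bound for high differences. -/
theorem Dl_bound (i : Fin 2) {d : ℤ} {g : ℂ → ℝ → ℝ → ℂ} (hg : Cls d g) {K : Set ℂ}
    (hK : IsCompact K) (N : ℕ) (hN : ∀ s ∈ K, (d : ℝ) - N - s.re ≤ -3) :
    ∃ C : ℝ, 0 ≤ C ∧ ∀ s ∈ K, ∀ k, ‖((Dl i)^[N] (lat i g)) s k‖ ≤ C * wt k := by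
  obtain ⟨gN, hgN, hb⟩ := hg.diff N
  obtain ⟨C₁, hC₁, hb₁⟩ := hgN.bound hK
  -- the finite part
  have hfin := finite_small (2 * N + 2)
  have hdiff : ∀ k, Differentiable ℂ (fun s => ((Dl i)^[N] (lat i g)) s k) := by
    apply Dl_diff
    intro k
    unfold lat
    by_cases hk : k = 0
    · simp only [hk, if_true]; exact differentiable_const 0
    · simp only [hk, if_false]; exact hg.differentiable _ _
  have hex : ∀ k, ∃ C : ℝ, ∀ s ∈ K, ‖((Dl i)^[N] (lat i g)) s k‖ ≤ C :=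
    fun k => hK.exists_bound_of_continuousOn (hdiff k).continuous.continuousOn
  choose Ck hCk using hex
  obtain ⟨C₂, hC₂⟩ : ∃ C₂ : ℝ, C₂ = ∑ k ∈ hfin.toFinset, |Ck k| := ⟨_, rfl⟩
  have hC₂0 : 0 ≤ C₂ := by rw [hC₂]; exact Finset.sum_nonneg fun k _ => abs_nonneg _
  refine ⟨64 * C₁ + C₂ * (1 + (2 * N + 2)) ^ 3, by positivity, fun s hs k => ?_⟩
  by_cases hk : ‖k‖ ≤ 2 * N + 2
  · have h1 : ‖((Dl i)^[N] (lat i g)) s k‖ ≤ C₂ := by
      refine (hCk k s hs).trans ((le_abs_self _).trans ?_)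
      rw [hC₂]
      exact Finset.single_le_sum (f := fun k => |Ck k|) (fun k _ => abs_nonneg _)
        (hfin.mem_toFinset.mpr hk)
    have h2 : 1 ≤ (1 + (2 * N + 2)) ^ 3 * wt k := by
      rw [wt, ← div_eq_mul_inv, one_le_div (by positivity)]
      gcongr
    calc ‖((Dl i)^[N] (lat i g)) s k‖ ≤ C₂ * 1 := by linarith
      _ ≤ C₂ * ((1 + (2 * N + 2)) ^ 3 * wt k) := by gcongr
      _ ≤ (64 * C₁ + C₂ * (1 + (2 * N + 2)) ^ 3) * wt k := by
          have := wt_pos k
          have : 0 ≤ 64 * C₁ * wt k := by positivity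
          linarith
  · rw [not_le] at hk
    have hN0 : (0 : ℝ) ≤ N := Nat.cast_nonneg N
    have hkpos : 0 < ‖k‖ := by linarith
    rw [Dl_lat i g s N k (by linarith)]
    have hdom : ∀ u ∈ Set.Icc ((k i : ℝ) - N) (k i), (‖k‖ / 2) ^ 2 ≤ u ^ 2 + (k (i + 1) : ℝ) ^ 2 := by
      intro u hu
      have h1 := norm_eq_max k i
      rcases le_total |(k i : ℝ)| |(k (i + 1) : ℝ)| with h2 | h2
      · rw [max_eq_right h2] at h1
        have h3 : (k (i + 1) : ℝ) ^ 2 = ‖k‖ ^ 2 := by rw [h1, sq_abs]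
        nlinarith [sq_nonneg u, sq_nonneg ‖k‖]
      · rw [max_eq_left h2] at h1
        have h3 : ‖k‖ / 2 ≤ |u| := by
          have h4 : |(k i : ℝ)| ≤ |u| + N := by
            have h5 : |(k i : ℝ) - u| ≤ N := by
              rw [abs_le]; constructor <;> linarith [hu.1, hu.2]
            calc |(k i : ℝ)| = |u + (k i - u)| := by ring_nf
              _ ≤ |u| + |(k i : ℝ) - u| := abs_add_le _ _
              _ ≤ |u| + N := by linarith
          rw [← h1] at h4
          linarith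
        have h4 : (‖k‖ / 2) ^ 2 ≤ u ^ 2 := by
          rw [← sq_abs u]
          exact pow_le_pow_left₀ (by positivity) h3 2
        nlinarith [sq_nonneg (k (i + 1) : ℝ)]
    have hmain : ‖(Dx^[N] g) s (k i) (k (i + 1))‖ ≤ C₁ * (8 * (‖k‖ ^ 3)⁻¹) := by
      apply hb
      intro u hu
      have h1 := hdom u hu
      have h2 : 0 < u ^ 2 + (k (i + 1) : ℝ) ^ 2 := lt_of_lt_of_le (by positivity) h1
      refine ⟨h2, (hb₁ s hs u _ h2).trans ?_⟩
      gcongr
      have h3 : Real.log (‖k‖ / 2) ≤ LL u (k (i + 1)) / 2 := by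
        have h4 : Real.log ((‖k‖ / 2) ^ 2) ≤ LL u (k (i + 1)) :=
          Real.log_le_log (by positivity) h1
        rw [Real.log_pow] at h4
        push_cast at h4
        linarith
      have h4 : 0 ≤ Real.log (‖k‖ / 2) := Real.log_nonneg (by linarith)
      have h5 : ((d - N : ℤ) : ℝ) - s.re ≤ -3 := by
        have := hN s hs
        push_cast
        linarith
      calc Real.exp ((((d - N : ℤ) : ℝ) - s.re) * (LL u (k (i + 1)) / 2))
          ≤ Real.exp (-3 * Real.log (‖k‖ / 2)) := by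
            rw [Real.exp_le_exp]
            nlinarith
        _ = 8 * (‖k‖ ^ 3)⁻¹ := by
            rw [show -3 * Real.log (‖k‖ / 2) = -((3 : ℕ) * Real.log (‖k‖ / 2)) by push_cast; ring,
              Real.exp_neg, Real.exp_nat_mul, Real.exp_log (by positivity)]
            field_simp
            norm_num
    have h1 : (‖k‖ ^ 3)⁻¹ ≤ 8 * wt k := by
      have h2 : (1 + ‖k‖) ^ 3 ≤ (2 * ‖k‖) ^ 3 := by
        gcongr
        linarith
      rw [wt, inv_le_iff_one_le_mul₀ (by positivity), mul_comm, ← mul_assoc, ← div_eq_mul_inv,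
        one_le_div (by positivity)]
      calc (1 + ‖k‖) ^ 3 ≤ (2 * ‖k‖) ^ 3 := h2
        _ = ‖k‖ ^ 3 * 8 := by ring
    calc ‖(Dx^[N] g) s (k i) (k (i + 1))‖ ≤ C₁ * (8 * (‖k‖ ^ 3)⁻¹) := hmain
      _ ≤ C₁ * (8 * (8 * wt k)) := by gcongr
      _ ≤ (64 * C₁ + C₂ * (1 + (2 * N + 2)) ^ 3) * wt k := by
          have := wt_pos k
          have : 0 ≤ C₂ * (1 + (2 * N + 2)) ^ 3 * wt k := by positivity
          linarith

/-- characters -/
noncomputable def chi (a : Fin 2 → ℝ) (k : Lt) : ℂ :=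
  cexp (2 * Real.pi * I * ∑ j, (k j : ℂ) * (a j : ℂ))

theorem norm_chi (a : Fin 2 → ℝ) (k : Lt) : ‖chi a k‖ = 1 := by
  have : (2 * Real.pi * I * ∑ j, (k j : ℂ) * (a j : ℂ)) =
      ((2 * Real.pi * ∑ j, (k j : ℝ) * a j : ℝ) : ℂ) * I := by
    push_cast
    ring
  rw [chi, this, norm_exp_ofReal_mul_I]

theorem chi_add (a : Fin 2 → ℝ) (k l : Lt) : chi a (k + l) = chi a k * chi a l := by
  rw [chi, chi, chi, ← Complex.exp_add]
  congr 1
  rw [← mul_add, ← Finset.sum_add_distrib]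
  congr 1
  apply Finset.sum_congr rfl
  intro j _
  rw [Pi.add_apply]
  push_cast
  ring

theorem summable_chi (a : Fin 2 → ℝ) (ψ : Lt → ℂ) (h : Summable ψ) :
    Summable (fun k => ψ k * chi a k) := by
  apply Summable.of_norm
  refine h.norm.congr fun k => ?_
  rw [norm_mul, norm_chi, mul_one]

theorem parts (i : Fin 2) (a : Fin 2 → ℝ) (ψ : ℂ → Lt → ℂ) (s : ℂ) (h : Summable (ψ s)) :
    ∑' k, Dl i ψ s k * chi a k = (1 - chi a (ee i)) * ∑' k, ψ s k * chi a k := by
  have h1 := summable_chi a (ψ s) h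
  have h2 : Summable (fun k => ψ s (k - ee i)) := (Equiv.subRight (ee i)).summable_iff.mpr h
  have h3 := summable_chi a _ h2
  have h4 : ∑' k, ψ s (k - ee i) * chi a k = chi a (ee i) * ∑' k, ψ s k * chi a k := by
    rw [← (Equiv.addRight (ee i)).tsum_eq (fun k => ψ s (k - ee i) * chi a k), ← tsum_mul_left]
    congr 1
    funext k
    rw [Equiv.coe_addRight, add_sub_cancel_right, chi_add]
    ring
  have h5 : ∀ k, Dl i ψ s k * chi a k = ψ s k * chi a k - ψ s (k - ee i) * chi a k := by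
    intro k
    rw [Dl, sub_mul]
  rw [tsum_congr h5, h1.tsum_sub h3, h4]
  ring

end Pool.Agent.R444.LS
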