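import Pool.Agent.R444.LS.Cont

/-!
The outer sum.
-/

set_option autoImplicit false

open Complex Filter

namespace Pool.Agent.R444.LS

theorem summable_pi {α : Type*} (f : α → ℝ) (h0 : ∀ x, 0 ≤ f x) (hf : Summable f) (n : ℕ) :
    Summable (fun l : Fin n → α => ∏ i, f (l i)) := by
  induction n with
  | zero => exact (hasSum_fintype _).summable
  | succ n ih =>
    rw [← (Fin.consEquiv (fun _ : Fin (n + 1) => α)).summable_iff]
    have h1 := hf.mul_of_nonneg ih h0 (fun l => Finset.prod_nonneg fun i _ => h0 _)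
    refine h1.congr fun p => ?_
    simp [Fin.consEquiv, Fin.prod_univ_succ]

/-- `|m √2 - p|` is not too small -/
theorem dio (m p : ℤ) (hm : m ≠ 0) (hp : |(m : ℝ) * √2 - p| ≤ 1 / 2) :
    1 / (4 * |(m : ℝ)|) ≤ |(m : ℝ) * √2 - p| := by
  have hm1 : (1 : ℝ) ≤ |(m : ℝ)| := by exact_mod_cast Int.one_le_abs hm
  have hs : √2 * √2 = (2 : ℝ) := Real.mul_self_sqrt (by norm_num)
  have hs1 : √2 ≤ 1.42 := by
    rw [Real.sqrt_le_left (by norm_num)]
    norm_num
  have hs0 : 0 ≤ √2 := Real.sqrt_nonneg 2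
  have hne : 2 * m ^ 2 - p ^ 2 ≠ 0 := by
    intro h0
    have h1 : (2 : ℝ) * m ^ 2 = p ^ 2 := by
      have : ((2 * m ^ 2 - p ^ 2 : ℤ) : ℝ) = 0 := by rw [h0]; simp
      push_cast at this
      linarith
    have hmR : (m : ℝ) ≠ 0 := by exact_mod_cast hm
    have h2 : √2 = ((|(p : ℚ) / m| : ℚ) : ℝ) := by
      have h3 : ((p : ℝ) / m) ^ 2 = 2 := by
        rw [div_pow, ← h1]
        field_simp
      push_cast
      rw [← h3, Real.sqrt_sq_eq_abs]
    exact irrational_sqrt_two ⟨_, h2.symm⟩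
  have h1 : (1 : ℝ) ≤ |(2 : ℝ) * m ^ 2 - p ^ 2| := by
    have := Int.one_le_abs hne
    exact_mod_cast this
  have h2 : (2 : ℝ) * m ^ 2 - p ^ 2 = ((m : ℝ) * √2 - p) * (m * √2 + p) := by
    ring_nf
    rw [Real.sq_sqrt (by norm_num)]
  rw [h2, abs_mul] at h1
  have h3 : |(m : ℝ) * √2 + p| ≤ 4 * |(m : ℝ)| := by
    have h4 : |(m : ℝ) * √2 + p| ≤ 2 * |(m : ℝ) * √2| + |(m : ℝ) * √2 - p| := by
      have h5 : (m : ℝ) * √2 + p = 2 * (m * √2) - (m * √2 - p) := by ring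
      rw [h5]
      refine (abs_sub _ _).trans ?_
      rw [abs_mul, abs_two]
    have h6 : |(m : ℝ) * √2| ≤ |(m : ℝ)| * 1.42 := by
      rw [abs_mul, abs_of_nonneg hs0]
      gcongr
    linarith
  rw [div_le_iff₀ (by positivity)]
  calc (1 : ℝ) ≤ |(m : ℝ) * √2 - p| * |(m : ℝ) * √2 + p| := h1
    _ ≤ |(m : ℝ) * √2 - p| * (4 * |(m : ℝ)|) := by gcongr

theorem dio_exp (m : ℤ) (hm : m ≠ 0) :
    1 / |(m : ℝ)| ≤ ‖1 - cexp (2 * Real.pi * I * ((m : ℝ) * √2 : ℝ))‖ := by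
  have hm1 : (1 : ℝ) ≤ |(m : ℝ)| := by exact_mod_cast Int.one_le_abs hm
  obtain ⟨p, hp⟩ : ∃ p : ℤ, p = round ((m : ℝ) * √2) := ⟨_, rfl⟩
  have h1 : |(m : ℝ) * √2 - p| ≤ 1 / 2 := by rw [hp]; exact abs_sub_round _
  have h2 := dio m p hm h1
  have h3 : ‖1 - cexp (2 * Real.pi * I * ((m : ℝ) * √2 : ℝ))‖ =
      2 * |Real.sin (Real.pi * ((m : ℝ) * √2))| := by
    rw [norm_sub_rev, show 2 * Real.pi * I * ((m : ℝ) * √2 : ℝ) =
      I * ((2 * Real.pi * ((m : ℝ) * √2) : ℝ) : ℂ) by push_cast; ring,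
      Complex.norm_exp_I_mul_ofReal_sub_one, norm_mul, Real.norm_eq_abs, Real.norm_eq_abs,
      abs_of_pos (by norm_num : (0 : ℝ) < 2)]
    congr 3
    ring
  have h4 : |Real.sin (Real.pi * ((m : ℝ) * √2))| =
      |Real.sin (Real.pi * ((m : ℝ) * √2 - p))| := by
    have h5 : Real.pi * ((m : ℝ) * √2) = Real.pi * ((m : ℝ) * √2 - p) + p * Real.pi := by ring
    rw [h5, Real.sin_add_int_mul_pi, abs_mul, abs_zpow, abs_neg, abs_one, one_zpow, one_mul]
  have h5 : 2 / Real.pi * |Real.pi * ((m : ℝ) * √2 - p)| ≤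
      |Real.sin (Real.pi * ((m : ℝ) * √2 - p))| := by
    apply Real.mul_abs_le_abs_sin
    rw [abs_mul, abs_of_pos Real.pi_pos]
    have := Real.pi_pos
    nlinarith
  rw [abs_mul, abs_of_pos Real.pi_pos] at h5
  have h6 : 2 / Real.pi * (Real.pi * |(m : ℝ) * √2 - p|) = 2 * |(m : ℝ) * √2 - p| := by
    have := Real.pi_pos
    field_simp
  rw [h6] at h5
  rw [h3, h4]
  calc 1 / |(m : ℝ)| = 4 * (1 / (4 * |(m : ℝ)|)) := by field_simp
    _ ≤ 4 * |(m : ℝ) * √2 - p| := by gcongr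
    _ ≤ 2 * |Real.sin (Real.pi * ((m : ℝ) * √2 - p))| := by linarith

/-- the vector `√2 m` -/
noncomputable def av (m : Lt) : Fin 2 → ℝ := fun j => √2 * m j

theorem chi_av (m : Lt) (i : Fin 2) :
    chi (av m) (ee i) = cexp (2 * Real.pi * I * (((m i : ℤ) : ℝ) * √2 : ℝ)) := by
  rw [chi]
  congr 2
  rw [Fin.sum_univ_two]
  fin_cases i
  · simp [ee, av, mul_comm]
  · simp [ee, av, mul_comm]

theorem chi_bound (m : Lt) (i : Fin 2) (hm : m i ≠ 0) :
    chi (av m) (ee i) ≠ 1 ∧ ‖(1 - chi (av m) (ee i))⁻¹‖ ≤ |((m i : ℤ) : ℝ)| := by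
  have hm1 : (1 : ℝ) ≤ |((m i : ℤ) : ℝ)| := by exact_mod_cast Int.one_le_abs hm
  have h1 := dio_exp (m i) hm
  rw [← chi_av] at h1
  have h2 : 0 < ‖1 - chi (av m) (ee i)‖ := lt_of_lt_of_le (by positivity) h1
  constructor
  · intro h3
    rw [h3, sub_self, norm_zero] at h2
    exact lt_irrefl _ h2
  · rw [norm_inv, inv_le_comm₀ h2 (by positivity), ← one_div]
    exact h1

/-- the direction -/
def dir (m : Lt) : Fin 2 := if m 0 ≠ 0 then 0 else 1

theorem dir_ne {m : Lt} (hm : m ≠ 0) : m (dir m) ≠ 0 := by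
  unfold dir
  split_ifs with h
  · exact h
  · intro h1
    apply hm
    funext j
    fin_cases j
    · exact not_not.mp h
    · exact h1

/-- the size of an index -/
def sz {q : ℕ} (l : Fin q → Lt) : ℝ := ∏ i, ∏ j, (1 + |(l i j : ℝ)|)

theorem one_le_prod' {ι : Type*} (S : Finset ι) (f : ι → ℝ) (h : ∀ i ∈ S, 0 ≤ f i) :
    1 + ∑ i ∈ S, f i ≤ ∏ i ∈ S, (1 + f i) := by
  classical
  induction S using Finset.induction_on with
  | empty => simp
  | insert i S hi ih =>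
    rw [Finset.sum_insert hi, Finset.prod_insert hi]
    have h1 := ih fun j hj => h j (Finset.mem_insert_of_mem hj)
    have h2 := h i (Finset.mem_insert_self i S)
    have h3 : 0 ≤ ∑ j ∈ S, f j := Finset.sum_nonneg fun j hj => h j (Finset.mem_insert_of_mem hj)
    nlinarith

theorem outer {q : ℕ} (P : MvPolynomial (Fin 2) ℂ) (d : ℕ) (hP : P.IsHomogeneous d)
    (b : (Fin q → Lt) → ℂ)
    (hb : ∀ M : ℕ, ∃ C : ℝ, ∀ l, sz l ^ M * ‖b l‖ ≤ C) (mm : (Fin q → Lt) → Lt)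
    (hmm : ∀ l j, |(mm l j : ℝ)| ≤ sz l) :
    Differentiable ℂ (fun s => ∑' l : {l : Fin q → Lt // mm l ≠ 0},
      b l.1 * FF P d (dir (mm l.1)) (av (mm l.1)) s) := by
  have hsz : ∀ l : Fin q → Lt, 1 ≤ sz l := by
    intro l
    refine Finset.prod_induction _ (fun x => 1 ≤ x)
      (fun a b ha hb => one_le_mul_of_one_le_of_one_le ha hb) le_rfl (fun i _ => ?_)
    refine Finset.prod_induction _ (fun x => 1 ≤ x)
      (fun a b ha hb => one_le_mul_of_one_le_of_one_le ha hb) le_rfl (fun j _ => ?_)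
    have := abs_nonneg (l i j : ℝ)
    linarith
  have hsum : Summable (fun l : Fin q → Lt => (sz l ^ 2)⁻¹) := by
    have h1 : Summable (fun x : ℤ => ((1 + |(x : ℝ)|) ^ 2)⁻¹) := by
      have h2 : Summable (fun x : ℤ => 1 / (x : ℝ) ^ 2) :=
        Real.summable_one_div_int_pow.mpr (by norm_num)
      refine h2.of_norm_bounded_eventually ?_
      have h3 : ∀ᶠ x : ℤ in cofinite, x ≠ 0 := by
        rw [eventually_cofinite]
        simp
      filter_upwards [h3] with x hx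
      have hx' : 0 < |(x : ℝ)| := abs_pos.mpr (by exact_mod_cast hx)
      rw [Real.norm_of_nonneg (by positivity), one_div, ← sq_abs (x : ℝ)]
      apply inv_anti₀ (by positivity)
      gcongr
      linarith
    have h2 := summable_pi _ (fun x => by positivity) h1 2
    have h3 := summable_pi _ (fun x => by positivity) h2 q
    refine h3.congr fun l => ?_
    rw [sz, ← Finset.prod_pow, ← Finset.prod_inv_distrib]
    apply Finset.prod_congr rfl
    intro i _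
    rw [← Finset.prod_pow, ← Finset.prod_inv_distrib]
  intro s₀
  obtain ⟨N, C, hC, hN⟩ := FF_bound hP (‖s₀‖ + 1)
  obtain ⟨C', hC'⟩ := hb (N + 2)
  have hball : s₀ ∈ Metric.ball (0 : ℂ) (‖s₀‖ + 1) := by
    rw [mem_ball_zero_iff]; linarith
  have hC'0 : 0 ≤ C' := by
    have h1 := hC' 0
    have h2 : 0 ≤ sz (0 : Fin q → Lt) ^ (N + 2) * ‖b 0‖ :=
      mul_nonneg (pow_nonneg (by linarith [hsz 0]) _) (norm_nonneg _)
    linarith
  have h1 : DifferentiableOn ℂ (fun s => ∑' l : {l : Fin q → Lt // mm l ≠ 0},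
      b l.1 * FF P d (dir (mm l.1)) (av (mm l.1)) s) (Metric.ball 0 (‖s₀‖ + 1)) := by
    apply differentiableOn_tsum_of_summable_norm
      (u := fun l : {l : Fin q → Lt // mm l ≠ 0} => (C' * C) * (sz l.1 ^ 2)⁻¹)
      ((hsum.mul_left (C' * C)).subtype _) _ Metric.isOpen_ball
    · rintro ⟨l, hl⟩ s hs
      obtain ⟨h2, h3⟩ := chi_bound (mm l) (dir (mm l)) (dir_ne hl)
      have h4 := (hN (dir (mm l)) (av (mm l)) h2).2 s hs
      have h5 : ‖(1 - chi (av (mm l)) (ee (dir (mm l))))⁻¹‖ ≤ sz l := h3.trans (hmm l _)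
      have hszl : 0 < sz l := by linarith [hsz l]
      show ‖b l * FF P d (dir (mm l)) (av (mm l)) s‖ ≤ (C' * C) * (sz l ^ 2)⁻¹
      rw [norm_mul]
      calc ‖b l‖ * ‖FF P d (dir (mm l)) (av (mm l)) s‖
          ≤ ‖b l‖ * (sz l ^ N * C) := by
            gcongr
            refine h4.trans ?_
            gcongr
        _ = (sz l ^ (N + 2) * ‖b l‖) * C * (sz l ^ 2)⁻¹ := by
            field_simp
            ring
        _ ≤ C' * C * (sz l ^ 2)⁻¹ := by
            have := hC' l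
            gcongr
    · rintro ⟨l, hl⟩
      obtain ⟨h2, -⟩ := chi_bound (mm l) (dir (mm l)) (dir_ne hl)
      exact (hN (dir (mm l)) (av (mm l)) h2).1.const_mul _
  exact (h1 s₀ hball).differentiableAt (Metric.isOpen_ball.mem_nhds hball)

end Pool.Agent.R444.LS
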